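import Pool.Agent.H80.PD1

open Polynomial

theorem Pool.Agent.Results.MP_1c7d4c_an.ConditionA.result :
    ∃ (n : ℕ) (x : Fin n → ℝ), 1 ≤ n ∧ StrictMono x ∧ (∀ j, x j ∈ Set.Icc (-1 : ℝ) 1) ∧
      (∀ j, x j = -x (Fin.rev j)) ∧
      (∀ k ≤ n, ∀ t ∈ Set.Ioo (-1 : ℝ) 1, |eval t (derivative^[k] (∏ j, (X - C (x j))))|
        ≤ eval 1 (derivative^[k] (∏ j, (X - C (x j))))) ∧
      ∃ a ∈ Set.Icc (-1 : ℝ) 1, ∃ y : ℝ,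
        ‖aeval ((1 : ℂ) + y * Complex.I) (∏ j, (X - C (x j)))‖
          < ‖aeval ((a : ℂ) + y * Complex.I) (∏ j, (X - C (x j)))‖ :=
  Pool.Agent.H80.PD.main
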